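import Pool.Agent.H867.FT.Gen2

set_option autoImplicit false

namespace Pool.Agent.H726.FT867SHF

open Pool.Agent.H867.FT

theorem shift {P R L K : Type} [CommRing P] [IsDomain P] [CommRing R] [IsDomain R]
    [Algebra P R] [Field L] [Algebra P L] [IsFractionRing P L]
    [Field K] [Algebra R K] [IsFractionRing R K] [Algebra P K] [IsScalarTower P R K]
    [Algebra L K] [IsScalarTower P L K] (C : Submodule R K) (a b c d : P) (x y₀ : K) (ω θ : R)
    (h : IsCub L C a b c d x y₀ ω θ) (ξ : P) :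
    ∃ ω' θ' : R, IsCub L C a (b + 3 * a * ξ) (c + 2 * b * ξ + 3 * a * ξ ^ 2)
      (a * ξ ^ 3 + b * ξ ^ 2 + c * ξ + d) (x - algebraMap P K ξ) y₀ ω' θ' := by
  obtain ⟨ha, hy, root, hω, hθ, gen, ind, hC⟩ := h
  have hPRK : ∀ p : P, algebraMap R K (algebraMap P R p) = algebraMap P K p := fun p =>
    (IsScalarTower.algebraMap_apply P R K p).symm
  have hPLK : ∀ p : P, algebraMap L K (algebraMap P L p) = algebraMap P K p := fun p =>
    (IsScalarTower.algebraMap_apply P L K p).symm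
  have hω' : algebraMap R K (ω - algebraMap P R (a * ξ)) =
      algebraMap P K a * (x - algebraMap P K ξ) := by
    rw [map_sub, hω, hPRK, map_mul]
    ring
  have hθ' : algebraMap R K (θ + algebraMap P R ξ * ω + algebraMap P R (b * ξ + a * ξ ^ 2)) =
      algebraMap P K a * (x - algebraMap P K ξ) ^ 2 +
        algebraMap P K (b + 3 * a * ξ) * (x - algebraMap P K ξ) +
        algebraMap P K (c + 2 * b * ξ + 3 * a * ξ ^ 2) := by
    simp only [map_add, map_mul, map_pow, hPRK, hω, hθ, map_ofNat]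
    ring
  refine ⟨ω - algebraMap P R (a * ξ), θ + algebraMap P R ξ * ω + algebraMap P R (b * ξ + a * ξ ^ 2),
    ⟨ha, hy, ?_, hω', hθ', ?_, ?_, ?_⟩⟩
  · simp only [map_add, map_mul, map_pow, map_ofNat]
    linear_combination root
  · intro r
    obtain ⟨r₀, r₁, r₂, hr⟩ := gen r
    refine ⟨r₀ + r₁ * a * ξ - r₂ * (2 * a * ξ ^ 2 + b * ξ), r₁ - r₂ * ξ, r₂, ?_⟩
    rw [hr]
    simp only [Algebra.smul_def, map_add, map_sub, map_mul, map_pow, map_ofNat]
    ring
  · intro l₀ l₁ l₂ hl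
    have h1 := ind (l₀ - l₁ * algebraMap P L ξ + l₂ * algebraMap P L ξ ^ 2)
      (l₁ - 2 * l₂ * algebraMap P L ξ) l₂ (by
        simp only [map_add, map_sub, map_mul, map_pow, hPLK, map_ofNat]
        linear_combination hl)
    obtain ⟨e0, e1, e2⟩ := h1
    rw [e2] at e1 e0
    have e1' : l₁ = 0 := by linear_combination e1
    rw [e1'] at e0
    exact ⟨by linear_combination e0, e1', e2⟩
  · intro y
    rw [hC y, hθ']
    rw [hθ]
    constructor
    · rintro ⟨g₀, g₁, g₂, hg⟩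
      refine ⟨g₀ + g₁ * ξ - g₂ * (2 * a * ξ ^ 2 + b * ξ), g₁ - g₂ * a * ξ, g₂, ?_⟩
      rw [hg]
      simp only [map_add, map_sub, map_mul, map_pow, map_ofNat]
      ring
    · rintro ⟨g₀, g₁, g₂, hg⟩
      refine ⟨g₀ - g₁ * ξ + g₂ * (a * ξ ^ 2 + b * ξ), g₁ + g₂ * a * ξ, g₂, ?_⟩
      rw [hg]
      simp only [map_add, map_sub, map_mul, map_pow, map_ofNat]
      ring

theorem swap {P R L K : Type} [CommRing P] [IsDomain P] [CommRing R] [IsDomain R]
    [Algebra P R] [Field L] [Algebra P L] [IsFractionRing P L]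
    [Field K] [Algebra R K] [IsFractionRing R K] [Algebra P K] [IsScalarTower P R K]
    [Algebra L K] [IsScalarTower P L K] (C : Submodule R K) (a b c d : P) (x y₀ : K) (ω θ : R)
    (h : IsCub L C a b c d x y₀ ω θ) :
    d ≠ 0 ∧ x ≠ 0 ∧ ∃ ω' θ' : R, IsCub L C d c b a x⁻¹ (y₀ * x) ω' θ' := by
  obtain ⟨ha, hy, root, hω, hθ, gen, ind, hC⟩ := h
  have hPLK : ∀ p : P, algebraMap L K (algebraMap P L p) = algebraMap P K p := fun p =>
    (IsScalarTower.algebraMap_apply P L K p).symm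
  have hx : x ≠ 0 := by
    intro h0
    have h1 := ind 0 1 0 (by rw [h0]; simp)
    exact one_ne_zero h1.2.1
  have hinj : Function.Injective (algebraMap P L) := IsFractionRing.injective P L
  have hd : d ≠ 0 := by
    intro h0
    have h1 : x * (algebraMap P K a * x ^ 2 + algebraMap P K b * x + algebraMap P K c) = 0 := by
      rw [h0, map_zero] at root
      linear_combination root
    have h2 := (mul_eq_zero.mp h1).resolve_left hx
    have h3 := ind (algebraMap P L c) (algebraMap P L b) (algebraMap P L a) (by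
      rw [hPLK, hPLK, hPLK]
      linear_combination h2)
    exact ha (hinj (by rw [h3.2.2, map_zero]))
  have hxx : x * x⁻¹ = 1 := mul_inv_cancel₀ hx
  have hω' : algebraMap R K (-θ) = algebraMap P K d * x⁻¹ := by
    rw [map_neg, hθ]
    field_simp
    linear_combination -root
  have hθ' : algebraMap R K (-ω) = algebraMap P K d * x⁻¹ ^ 2 + algebraMap P K c * x⁻¹ +
      algebraMap P K b := by
    rw [map_neg, hω]
    field_simp
    linear_combination -root
  refine ⟨hd, hx, -θ, -ω, ⟨hd, mul_ne_zero hy hx, ?_, hω', hθ', ?_, ?_, ?_⟩⟩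
  · field_simp
    linear_combination root
  · intro r
    obtain ⟨r₀, r₁, r₂, hr⟩ := gen r
    refine ⟨r₀, -r₂, -r₁, ?_⟩
    rw [hr]
    simp only [smul_neg, neg_smul, neg_neg]
    ring
  · intro l₀ l₁ l₂ hl
    have h1 := ind l₂ l₁ l₀ (by
      have h2 : algebraMap L K l₂ + algebraMap L K l₁ * x + algebraMap L K l₀ * x ^ 2 =
        (algebraMap L K l₀ + algebraMap L K l₁ * x⁻¹ + algebraMap L K l₂ * x⁻¹ ^ 2) * x ^ 2 := by
        field_simp
        ring
      rw [h2, hl, zero_mul])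
    exact ⟨h1.2.2, h1.2.1, h1.1⟩
  · intro y
    rw [hC y]
    have hk : ∀ g₀ g₁ g₂ : K, y₀ * x * (g₀ + g₁ * x⁻¹ + g₂ * algebraMap R K (-ω)) =
      y₀ * ((g₁ + g₂ * algebraMap P K c) + (g₀ + g₂ * algebraMap P K b) * x -
        g₂ * algebraMap R K θ) := by
      intro g₀ g₁ g₂
      rw [map_neg, hω, hθ]
      linear_combination y₀ * g₁ * hxx
    constructor
    · rintro ⟨g₀, g₁, g₂, hg⟩
      refine ⟨g₁ + g₂ * b, g₀ + g₂ * c, -g₂, ?_⟩
      rw [hk, hg]
      simp only [map_add, map_mul, map_neg]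
      ring
    · rintro ⟨g₀, g₁, g₂, hg⟩
      refine ⟨g₁ + g₂ * c, g₀ + g₂ * b, -g₂, ?_⟩
      rw [hg, hk]
      simp only [map_add, map_mul, map_neg]
      ring

theorem shf : Pool.Agent.H867.FT.S_SHF := by
  intro P R L K _ _ _ _ _ _ _ _ _ _ _ _ _ _ _ C a b c d x y₀ ω θ h
  exact ⟨shift C a b c d x y₀ ω θ h, swap C a b c d x y₀ ω θ h⟩

end Pool.Agent.H726.FT867SHF
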