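import Mathlib
import Pool.Agent.H576.RD.Stm

/-!
# Regularity radius (for helper576): tetrahedral case, nearest points and lens partners
-/

set_option autoImplicit false

namespace Pool.Agent.H726.CT1a

open Pool.Agent.H576.RD

/-- lens partners in coordinates -/
def LP (P : ℝ → ℝ → ℝ → Prop) (L a b c : ℝ) : Prop :=
  P a b c ∧ a ^ 2 + b ^ 2 + c ^ 2 = L ^ 2 ∧
    ∀ x y z, P x y z → x ^ 2 + y ^ 2 + z ^ 2 < L ^ 2 →
      2 * (x * a + y * b + z * c) ≤ x ^ 2 + y ^ 2 + z ^ 2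

/-- invariance under the tetrahedral group -/
structure Inv (Q : ℝ → ℝ → ℝ → Prop) : Prop where
  cyc : ∀ x y z, Q x y z → Q y z x
  d : ∀ x y z, Q x y z → Q x (-y) (-z)
  sw : ∀ x y z, Q x y z → Q y x z

/-- the hypotheses in coordinates -/
structure HP (P : ℝ → ℝ → ℝ → Prop) (s L : ℝ) : Prop where
  cyc : ∀ x y z, x ^ 2 + y ^ 2 + z ^ 2 ≤ 4 → P x y z → P y z x
  d : ∀ x y z, x ^ 2 + y ^ 2 + z ^ 2 ≤ 4 → P x y z → P x (-y) (-z)
  sw : ∀ x y z, x ^ 2 + y ^ 2 + z ^ 2 ≤ 4 → P x y z → P y x z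
  spos : 0 < s
  sL : s < L
  L2 : L ≤ 2
  min : ∀ x y z x' y' z', P x y z → P x' y' z' →
    (x - x') ^ 2 + (y - y') ^ 2 + (z - z') ^ 2 = 0 ∨
      s ^ 2 ≤ (x - x') ^ 2 + (y - y') ^ 2 + (z - z') ^ 2
  lens : ∃ a b c, LP P L a b c

theorem Inv.p1 {Q : ℝ → ℝ → ℝ → Prop} (h : Inv Q) {a b c : ℝ} (hQ : Q a b c) : Q a c b :=
  h.cyc _ _ _ (h.sw _ _ _ hQ)

theorem Inv.s2 {Q : ℝ → ℝ → ℝ → Prop} (h : Inv Q) {a b c : ℝ} (hQ : Q a b c) : Q (-a) b (-c) :=
  h.sw _ _ _ (h.d _ _ _ (h.sw _ _ _ hQ))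

theorem Inv.s3 {Q : ℝ → ℝ → ℝ → Prop} (h : Inv Q) {a b c : ℝ} (hQ : Q a b c) : Q (-a) (-b) c := by
  have h1 := h.d _ _ _ (h.s2 hQ)
  rwa [neg_neg] at h1

/-- sorting the absolute values -/
theorem Inv.sort1 {Q : ℝ → ℝ → ℝ → Prop} (h : Inv Q) {a b c : ℝ} (hQ : Q a b c) :
    ∃ a' b' c', Q a' b' c' ∧ |b'| ≤ |a'| ∧ |c'| ≤ |b'| := by
  have q2 : Q b c a := h.cyc _ _ _ hQ
  have q3 : Q c a b := h.cyc _ _ _ q2
  have q4 : Q b a c := h.sw _ _ _ hQ
  have q5 : Q a c b := h.cyc _ _ _ q4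
  have q6 : Q c b a := h.cyc _ _ _ q5
  rcases le_total |a| |b| with h1 | h1 <;> rcases le_total |b| |c| with h2 | h2 <;>
    rcases le_total |a| |c| with h3 | h3
  · exact ⟨c, b, a, q6, h2, h1⟩
  · exact ⟨c, b, a, q6, h2, h1⟩
  · exact ⟨b, c, a, q2, h2, h3⟩
  · exact ⟨b, a, c, q4, h1, h3⟩
  · exact ⟨c, a, b, q3, h3, h1⟩
  · exact ⟨a, c, b, q5, h3, h2⟩
  · exact ⟨a, b, c, hQ, h1, h2⟩
  · exact ⟨a, b, c, hQ, h1, h2⟩

/-- a representative in the fundamental domain -/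
theorem Inv.sort {Q : ℝ → ℝ → ℝ → Prop} (h : Inv Q) {a b c : ℝ} (hQ : Q a b c) :
    ∃ a' b' c', Q a' b' c' ∧ b' ≤ a' ∧ |c'| ≤ b' := by
  obtain ⟨a, b, c, hQ, h1, h2⟩ := h.sort1 hQ
  rcases le_total 0 a with ha | ha <;> rcases le_total 0 b with hb | hb
  · rw [abs_of_nonneg ha, abs_of_nonneg hb] at h1
    rw [abs_of_nonneg hb] at h2
    exact ⟨a, b, c, hQ, h1, h2⟩
  · rw [abs_of_nonneg ha, abs_of_nonpos hb] at h1
    rw [abs_of_nonpos hb] at h2
    exact ⟨a, -b, -c, h.d _ _ _ hQ, h1, by rwa [abs_neg]⟩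
  · rw [abs_of_nonpos ha, abs_of_nonneg hb] at h1
    rw [abs_of_nonneg hb] at h2
    exact ⟨-a, b, -c, h.s2 hQ, h1, by rwa [abs_neg]⟩
  · rw [abs_of_nonpos ha, abs_of_nonpos hb] at h1
    rw [abs_of_nonpos hb] at h2
    exact ⟨-a, -b, c, h.s3 hQ, h1, h2⟩

section hp

variable {P : ℝ → ℝ → ℝ → Prop} {s L : ℝ}

theorem HP.L4 (h : HP P s L) : L ^ 2 ≤ 4 := by
  have h1 := h.spos
  have h2 := h.sL
  have h3 := h.L2
  nlinarith

theorem HP.s4 (h : HP P s L) : s ^ 2 < L ^ 2 := by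
  have h1 := h.spos
  have h2 := h.sL
  nlinarith

/-- the sphere of radius `√k` -/
theorem HP.sph (h : HP P s L) {k : ℝ} (hk : k ≤ 4) :
    Inv (fun x y z => P x y z ∧ x ^ 2 + y ^ 2 + z ^ 2 = k) where
  cyc := fun x y z hx => ⟨h.cyc x y z (by linarith [hx.2]) hx.1, by linarith [hx.2]⟩
  d := fun x y z hx => ⟨h.d x y z (by linarith [hx.2]) hx.1, by linarith [hx.2, neg_sq y, neg_sq z]⟩
  sw := fun x y z hx => ⟨h.sw x y z (by linarith [hx.2]) hx.1, by linarith [hx.2]⟩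

/-- the lens partners are invariant -/
theorem HP.lp (h : HP P s L) : Inv (LP P L) where
  cyc := by
    rintro a b c ⟨h1, h2, h3⟩
    refine ⟨h.cyc a b c (by linarith [h.L4]) h1, by linarith, fun x y z hP hn => ?_⟩
    have hP2 := h.cyc x y z (by linarith [h.L4]) hP
    have hP3 := h.cyc y z x (by linarith [h.L4]) hP2
    have := h3 z x y hP3 (by linarith)
    linarith
  d := by
    rintro a b c ⟨h1, h2, h3⟩
    refine ⟨h.d a b c (by linarith [h.L4]) h1, by linarith [neg_sq b, neg_sq c],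
      fun x y z hP hn => ?_⟩
    have hP2 := h.d x y z (by linarith [h.L4]) hP
    have := h3 x (-y) (-z) hP2 (by linarith [neg_sq y, neg_sq z])
    linarith [neg_sq y, neg_sq z]
  sw := by
    rintro a b c ⟨h1, h2, h3⟩
    refine ⟨h.sw a b c (by linarith [h.L4]) h1, by linarith, fun x y z hP hn => ?_⟩
    have hP2 := h.sw x y z (by linarith [h.L4]) hP
    have := h3 y x z hP2 (by linarith)
    linarith

/-- the lens partners, if `(-t,-t,-t)` is a nearest point -/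
theorem HP.mainA (h : HP P s L) {t : ℝ} (ht : 0 < t) (hts : 3 * t ^ 2 = s ^ 2)
    (hP : P (-t) (-t) (-t)) :
    2 * L ≤ 3 * s ∧ ∃ u, 0 < u ∧ 3 * u ^ 2 = L ^ 2 ∧ LP P L u u u := by
  obtain ⟨a0, b0, c0, h0⟩ := h.lens
  obtain ⟨a, b, c, ⟨h1, h2, h3⟩, hba, hcb⟩ := h.lp.sort h0
  obtain ⟨hc1, hc2⟩ := abs_le.1 hcb
  have hs4 := h.s4
  have hL4 := h.L4
  have hL : 0 < L := h.spos.trans h.sL
  have hs : 0 < s := h.spos
  have q1 : P t t (-t) := by
    have := (h.sph (k := s ^ 2) (by linarith)).s3 (a := -t) (b := -t) (c := -t)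
      ⟨hP, by linarith [neg_sq t]⟩
    rw [neg_neg] at this
    exact this.1
  have hq := h3 t t (-t) q1 (by linarith [neg_sq t])
  -- `a + b - c ≤ 3 t / 2`
  have hq' : a + b - c ≤ 3 * t / 2 := by
    have e1 : t * (2 * (a + b - c)) ≤ t * (3 * t) := by nlinarith
    have := le_of_mul_le_mul_left e1 ht
    linarith
  have hac : a = c := by
    rcases h.min a b c c b a h1 (by
      have := (h.sph (k := L ^ 2) hL4).p1 (a := a) (b := b) (c := c) ⟨h1, h2⟩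
      exact ((h.sph (k := L ^ 2) hL4).cyc _ _ _ this).1) with h5 | h5
    · have : (a - c) ^ 2 = 0 := by nlinarith [sq_nonneg (a - c), sq_nonneg (b - b)]
      have := pow_eq_zero_iff (two_ne_zero) |>.1 this
      linarith
    · exfalso
      have h6 : 3 * t ^ 2 ≤ 2 * (a - c) ^ 2 := by nlinarith
      have hac0 : 0 ≤ a - c := by linarith
      have h7 : 6 / 5 * t ≤ a - c := by
        by_contra hcon
        rw [not_le] at hcon
        nlinarith
      have hb1 : b ≤ 3 / 10 * t := by linarith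
      have hb0 : 0 ≤ b := (abs_nonneg c).trans hcb
      have ha1 : a ≤ 3 / 2 * t := by linarith
      have ha0 : 0 ≤ a := hb0.trans hba
      have e1 : a ^ 2 ≤ (3 / 2 * t) ^ 2 := pow_le_pow_left₀ ha0 ha1 2
      have e2 : b ^ 2 ≤ (3 / 10 * t) ^ 2 := pow_le_pow_left₀ hb0 hb1 2
      have e3 : c ^ 2 ≤ b ^ 2 := sq_le_sq' hc1 hc2
      nlinarith
  subst hac
  have hab : b = a := le_antisymm hba hc2
  subst hab
  have hu3 : 3 * b ^ 2 = L ^ 2 := by linarith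
  have hb0 : 0 ≤ b := (abs_nonneg b).trans hcb
  have hbpos : 0 < b := by
    rcases hb0.lt_or_eq with h5 | h5
    · exact h5
    · exfalso
      rw [← h5] at hu3
      nlinarith
  refine ⟨?_, b, hbpos, hu3, h1, h2, h3⟩
  -- `b ≤ 3 t / 2`
  have e1 : b ≤ 3 * t / 2 := by linarith
  have e2 : (2 * L) ^ 2 ≤ (3 * s) ^ 2 := by nlinarith
  exact le_of_sq_le_sq e2 (by linarith)

/-- nearest points on two coordinate planes -/
theorem HP.caseB (h : HP P s L) {x z : ℝ} (hv : P x x z) (hn : x ^ 2 + x ^ 2 + z ^ 2 = s ^ 2)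
    (hx0 : 0 ≤ x) (hz1 : -x ≤ z) (hz2 : z ≤ x)
    (k1 : z = x ∨ s ^ 2 ≤ 2 * (x - z) ^ 2) (k2 : z = -x ∨ s ^ 2 ≤ 2 * (x + z) ^ 2) :
    ∃ t, 0 < t ∧ 3 * t ^ 2 = s ^ 2 ∧ (P t t t ∨ P (-t) (-t) (-t)) := by
  have hs4 := h.s4
  have hL4 := h.L4
  have hs : 0 < s := h.spos
  have hs2 : 0 < s ^ 2 := by positivity
  have inv := h.sph (k := s ^ 2) (by linarith)
  rcases k1 with hz | k1
  · subst hz
    refine ⟨z, ?_, by linarith, Or.inl hv⟩
    rcases hx0.lt_or_eq with h5 | h5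
    · exact h5
    · exfalso
      rw [← h5] at hn
      linarith
  rcases k2 with hz | k2
  · subst hz
    refine ⟨x, ?_, by linarith [neg_sq x], Or.inr (inv.s3 ⟨hv, hn⟩).1⟩
    rcases hx0.lt_or_eq with h5 | h5
    · exact h5
    · exfalso
      rw [← h5] at hn
      norm_num at hn
      linarith
  exfalso
  have hz0 : z = 0 := by
    rcases lt_trichotomy z 0 with h5 | h5 | h5
    · exfalso
      have e0 : z * (z + 4 * x) = 2 * (x + z) ^ 2 - (x ^ 2 + x ^ 2 + z ^ 2) := by ring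
      have e1 : 0 ≤ z * (z + 4 * x) := by linarith
      have e2 : z + 4 * x ≤ 0 := by
        by_contra hcon
        rw [not_le] at hcon
        exact absurd e1 (not_le.2 (mul_neg_of_neg_of_pos h5 hcon))
      linarith
    · exact h5
    · exfalso
      have e0 : z * (z - 4 * x) = 2 * (x - z) ^ 2 - (x ^ 2 + x ^ 2 + z ^ 2) := by ring
      have e1 : 0 ≤ z * (z - 4 * x) := by linarith
      have e2 : 0 ≤ z - 4 * x := nonneg_of_mul_nonneg_right e1 h5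
      linarith
  subst hz0
  have hxpos : 0 < x := by
    rcases hx0.lt_or_eq with h5 | h5
    · exact h5
    · exfalso
      rw [← h5] at hn
      norm_num at hn
      linarith
  obtain ⟨a0, b0, c0, h0⟩ := h.lens
  obtain ⟨a, b, c, ⟨h1, h2, h3⟩, hba, hcb⟩ := h.lp.sort h0
  obtain ⟨hc1, hc2⟩ := abs_le.1 hcb
  have hb0 : 0 ≤ b := (abs_nonneg c).trans hcb
  have ha0 : 0 ≤ a := hb0.trans hba
  have hcc : c ^ 2 ≤ b ^ 2 := sq_le_sq' hc1 hc2
  have hlp := h3 x x 0 hv (by linarith)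
  have e1 : a + b ≤ x := by
    have e2 : x * (a + b) ≤ x * x := by linarith
    exact le_of_mul_le_mul_left e2 hxpos
  have e3 : (a + b) ^ 2 ≤ x ^ 2 := pow_le_pow_left₀ (by linarith) e1 2
  have e4 : b ^ 2 ≤ x ^ 2 := pow_le_pow_left₀ hb0 (by linarith) 2
  have e5 : (a + b) ^ 2 = a ^ 2 + b ^ 2 + 2 * (a * b) := by ring
  have e6 := mul_nonneg ha0 hb0
  linarith

/-- the nearest points -/
theorem HP.nearest (h : HP P s L) {x y z : ℝ} (hv : P x y z) (hn : x ^ 2 + y ^ 2 + z ^ 2 = s ^ 2)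
    (hyx : y ≤ x) (hzy : |z| ≤ y) :
    ∃ t, 0 < t ∧ 3 * t ^ 2 = s ^ 2 ∧ (P t t t ∨ P (-t) (-t) (-t)) := by
  obtain ⟨hz1, hz2⟩ := abs_le.1 hzy
  have hs4 := h.s4
  have hL4 := h.L4
  have hs : 0 < s := h.spos
  have hs2 : 0 < s ^ 2 := by positivity
  have hy0 : 0 ≤ y := (abs_nonneg z).trans hzy
  have hx0 : 0 ≤ x := hy0.trans hyx
  have inv := h.sph (k := s ^ 2) (by linarith)
  have g2 := inv.p1 ⟨hv, hn⟩
  have g3 := inv.d _ _ _ g2
  have k1 : z = y ∨ s ^ 2 ≤ 2 * (y - z) ^ 2 := by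
    rcases h.min _ _ _ _ _ _ hv g2.1 with h5 | h5
    · left
      have h6 : (y - z) ^ 2 = 0 := by linear_combination (1 / 2) * h5
      have h7 := pow_eq_zero_iff (two_ne_zero) |>.1 h6
      linarith
    · right
      exact h5.trans (le_of_eq (by ring))
  have k2 : z = -y ∨ s ^ 2 ≤ 2 * (y + z) ^ 2 := by
    rcases h.min _ _ _ _ _ _ hv g3.1 with h5 | h5
    · left
      have h6 : (y + z) ^ 2 = 0 := by linear_combination (1 / 2) * h5
      have h7 := pow_eq_zero_iff (two_ne_zero) |>.1 h6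
      linarith
    · right
      exact h5.trans (le_of_eq (by ring))
  by_cases hxy : x = y
  · subst hxy
    exact h.caseB hv hn hx0 hz1 hz2 k1 k2
  · exfalso
    have k0 : s ^ 2 ≤ 2 * (x - y) ^ 2 := by
      rcases h.min _ _ _ _ _ _ hv (inv.sw _ _ _ ⟨hv, hn⟩).1 with h5 | h5
      · exfalso
        apply hxy
        have h6 : (x - y) ^ 2 = 0 := by linear_combination (1 / 2) * h5
        have h7 := pow_eq_zero_iff (two_ne_zero) |>.1 h6
        linarith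
      · exact h5.trans (le_of_eq (by ring))
    have hy : y = 0 := by
      by_contra hy
      have hypos : 0 < y := lt_of_le_of_ne hy0 (Ne.symm hy)
      have key : s ^ 2 ≤ 8 * y ^ 2 := by
        rcases le_total 0 z with hz | hz
        · rcases k2 with k2 | k2
          · linarith
          · have e1 : (y + z) ^ 2 ≤ (2 * y) ^ 2 := pow_le_pow_left₀ (by linarith) (by linarith) 2
            linarith
        · rcases k1 with k1 | k1
          · linarith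
          · have e1 : (y - z) ^ 2 ≤ (2 * y) ^ 2 := pow_le_pow_left₀ (by linarith) (by linarith) 2
            linarith
      have hz2' := sq_nonneg z
      have hx3 : x < 3 * y := by
        by_contra hcon
        rw [not_lt] at hcon
        have e1 : (3 * y) ^ 2 ≤ x ^ 2 := pow_le_pow_left₀ (by linarith) hcon 2
        have e2 : 0 < y ^ 2 := by positivity
        linarith
      have e1 := mul_nonneg (sub_nonneg.2 hyx) (sub_nonneg.2 hx3.le)
      have e2 : 0 < y ^ 2 := by positivity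
      have e3 : 2 * (x - y) ^ 2 - (x ^ 2 + y ^ 2 + z ^ 2) =
        -((x - y) * (3 * y - x)) - 2 * y ^ 2 - z ^ 2 := by ring
      linarith
    subst hy
    have hz0 : z = 0 := by linarith
    subst hz0
    have hxpos : 0 < x := by
      rcases hx0.lt_or_eq with h5 | h5
      · exact h5
      · exfalso
        exact hxy h5.symm
    obtain ⟨a0, b0, c0, h0⟩ := h.lens
    obtain ⟨a, b, c, ⟨h1, h2, h3⟩, hba, hcb⟩ := h.lp.sort h0
    obtain ⟨hc1, hc2⟩ := abs_le.1 hcb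
    have hb0 : 0 ≤ b := (abs_nonneg c).trans hcb
    have ha0 : 0 ≤ a := hb0.trans hba
    have hcc : c ^ 2 ≤ b ^ 2 := sq_le_sq' hc1 hc2
    have hlp := h3 x 0 0 hv (by linarith)
    have e1 : 2 * a ≤ x := by
      have e2 : x * (2 * a) ≤ x * x := by linarith
      exact le_of_mul_le_mul_left e2 hxpos
    have e3 : (2 * a) ^ 2 ≤ x ^ 2 := pow_le_pow_left₀ (by linarith) e1 2
    have e4 : b ^ 2 ≤ a ^ 2 := pow_le_pow_left₀ hb0 hba 2
    linarith

end hp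

/-! ### from vectors to coordinates -/

theorem nsq (x y z : ℝ) : ‖(!₂[x, y, z] : E)‖ ^ 2 = x ^ 2 + y ^ 2 + z ^ 2 := by
  rw [EuclideanSpace.norm_sq_eq, Fin.sum_univ_three]
  simp

theorem eta (v : E) : v = !₂[v 0, v 1, v 2] := by
  ext i
  fin_cases i <;> rfl

theorem nsq' (v : E) : ‖v‖ ^ 2 = v 0 ^ 2 + v 1 ^ 2 + v 2 ^ 2 := by
  conv_lhs => rw [eta v]
  exact nsq _ _ _

theorem le_two {x y z : ℝ} (h : x ^ 2 + y ^ 2 + z ^ 2 ≤ 4) : ‖(!₂[x, y, z] : E)‖ ≤ 2 := by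
  have h1 := nsq x y z
  have h2 := norm_nonneg (!₂[x, y, z] : E)
  nlinarith

/-- the set in coordinates, with a sign -/
def PP (X : Set E) (ε x y z : ℝ) : Prop := (!₂[ε * x, ε * y, ε * z] : E) ∈ X

section assembly

variable {X : Set E} {s L ε : ℝ}

theorem sub_eq (x y z x' y' z' : ℝ) :
    (!₂[x, y, z] : E) - !₂[x', y', z'] = !₂[x - x', y - y', z - z'] := by
  ext i
  fin_cases i <;> rfl

theorem hp_of (hε : ε = 1 ∨ ε = -1) (h0 : (0 : E) ∈ X) (hcyc : Sym X 2 cycE) (hd : Sym X 2 dE)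
    (hsw : Sym X 2 swE) (hmin : MinD X s) (hlens : Lens X L) (hL2 : L ≤ 2) (hsL : s < L) :
    HP (PP X ε) s L := by
  have hε2 : ε * ε = 1 := by rcases hε with h | h <;> rw [h] <;> norm_num
  have hsq : ∀ x : ℝ, (ε * x) ^ 2 = x ^ 2 := fun x => by
    rw [mul_pow, sq ε, hε2, one_mul]
  have hn : ∀ {x y z : ℝ}, x ^ 2 + y ^ 2 + z ^ 2 ≤ 4 →
      ‖(!₂[ε * x, ε * y, ε * z] : E)‖ ≤ 2 := by
    intro x y z h
    apply le_two
    rw [hsq, hsq, hsq]
    exact h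
  refine ⟨?_, ?_, ?_, hmin.pos, hsL, hL2, ?_, ?_⟩
  · intro x y z h hP
    exact (hcyc _ (hn h)).1 hP
  · intro x y z h hP
    have h1 : (!₂[ε * x, -(ε * y), -(ε * z)] : E) ∈ X := (hd _ (hn h)).1 hP
    unfold PP
    rwa [mul_neg, mul_neg]
  · intro x y z h hP
    exact (hsw _ (hn h)).1 hP
  · intro x y z x' y' z' hP hP'
    have e1 : ‖(!₂[ε * x, ε * y, ε * z] : E) - !₂[ε * x', ε * y', ε * z']‖ ^ 2 =
        (x - x') ^ 2 + (y - y') ^ 2 + (z - z') ^ 2 := by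
      rw [sub_eq, nsq, ← mul_sub, ← mul_sub, ← mul_sub, hsq, hsq, hsq]
    by_cases he : (!₂[ε * x, ε * y, ε * z] : E) = !₂[ε * x', ε * y', ε * z']
    · left
      rw [← e1, he, sub_self, norm_zero]
      norm_num
    · right
      rw [← e1]
      exact pow_le_pow_left₀ hmin.pos.le (hmin.le _ hP' _ hP (Ne.symm he)) 2
  · obtain ⟨b, hb, hbL, hb2⟩ := hlens 0 h0
    rw [sub_zero] at hbL
    have hL0 : 0 ≤ L := by rw [← hbL]; exact norm_nonneg _
    have hcancel : ∀ x : ℝ, ε * (ε * x) = x := fun x => by rw [← mul_assoc, hε2, one_mul]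
    refine ⟨ε * b 0, ε * b 1, ε * b 2, ?_, ?_, ?_⟩
    · unfold PP
      rw [hcancel, hcancel, hcancel, ← eta]
      exact hb
    · rw [hsq, hsq, hsq, ← nsq', hbL]
    · intro x y z hP hlt
      have e2 : ‖(!₂[ε * x, ε * y, ε * z] : E)‖ ^ 2 = x ^ 2 + y ^ 2 + z ^ 2 := by
        rw [nsq, hsq, hsq, hsq]
      have h3 : ‖(!₂[ε * x, ε * y, ε * z] : E)‖ < L := by
        apply lt_of_pow_lt_pow_left₀ 2 hL0
        rw [e2]; exact hlt
      have h4 := hb2 _ hP (by rwa [sub_zero])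
      have h5 : L ^ 2 ≤ ‖(!₂[ε * x, ε * y, ε * z] : E) - b‖ ^ 2 := pow_le_pow_left₀ hL0 h4 2
      have h6 : ‖(!₂[ε * x, ε * y, ε * z] : E) - b‖ ^ 2 =
          (ε * x - b 0) ^ 2 + (ε * y - b 1) ^ 2 + (ε * z - b 2) ^ 2 := by
        conv_lhs => rw [eta b]
        rw [sub_eq, nsq]
      rw [h6] at h5
      have h7 : b 0 ^ 2 + b 1 ^ 2 + b 2 ^ 2 = L ^ 2 := by rw [← nsq', hbL]
      have h8 := hsq x
      have h9 := hsq y
      have h10 := hsq z
      nlinarith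

theorem lens_of (hε : ε = 1 ∨ ε = -1) (hL : 0 ≤ L) {a b c : ℝ} (h : LP (PP X ε) L a b c) :
    ∀ z ∈ X, ‖z‖ < L → L ≤ ‖z - !₂[ε * a, ε * b, ε * c]‖ := by
  have hε2 : ε * ε = 1 := by rcases hε with h | h <;> rw [h] <;> norm_num
  have hsq : ∀ x : ℝ, (ε * x) ^ 2 = x ^ 2 := fun x => by
    rw [mul_pow, sq ε, hε2, one_mul]
  have hcancel : ∀ x : ℝ, ε * (ε * x) = x := fun x => by rw [← mul_assoc, hε2, one_mul]
  intro z hz hlt
  obtain ⟨h1, h2, h3⟩ := h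
  have h4 : PP X ε (ε * z 0) (ε * z 1) (ε * z 2) := by
    unfold PP
    rw [hcancel, hcancel, hcancel, ← eta]
    exact hz
  have h5 : ‖z‖ ^ 2 < L ^ 2 := pow_lt_pow_left₀ hlt (norm_nonneg z) two_ne_zero
  have h6 := h3 _ _ _ h4 (by rw [hsq, hsq, hsq, ← nsq']; exact h5)
  apply le_of_sq_le_sq _ (norm_nonneg _)
  have e1 : ‖z - !₂[ε * a, ε * b, ε * c]‖ ^ 2 =
      (z 0 - ε * a) ^ 2 + (z 1 - ε * b) ^ 2 + (z 2 - ε * c) ^ 2 := by
    conv_lhs => rw [eta z]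
    rw [sub_eq, nsq]
  rw [e1]
  have h8 := hsq a
  have h9 := hsq b
  have h10 := hsq c
  have h11 := hsq (z 0)
  have h12 := hsq (z 1)
  have h13 := hsq (z 2)
  nlinarith

/-- the vertex vectors in coordinates -/
noncomputable def tc (ε w : ℝ) (i : Fin 4) : E :=
  (![!₂[ε * w, ε * w, ε * w], !₂[ε * w, ε * (-w), ε * (-w)], !₂[ε * (-w), ε * w, ε * (-w)],
    !₂[ε * (-w), ε * (-w), ε * w]] : Fin 4 → E) i

theorem tv_eq {k w : ℝ} (h : Real.sqrt 3 * w = k) (ε : ℝ) (i : Fin 4) :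
    (ε * k) • tv i = tc ε w i := by
  have h3 : Real.sqrt 3 ≠ 0 := by positivity
  have e : ε * k * (1 / Real.sqrt 3) = ε * w := by
    rw [← h]
    field_simp
  unfold tv tc
  rw [smul_smul, e]
  fin_cases i <;> (ext j; fin_cases j <;> simp)

theorem tc_neg (ε w : ℝ) (i : Fin 4) : -(tc ε w i) = tc ε (-w) i := by
  unfold tc
  fin_cases i <;> (ext j; fin_cases j <;> simp)

theorem final (hε : ε = 1 ∨ ε = -1) (hP : HP (PP X ε) s L) {t : ℝ} (ht : 0 < t)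
    (hts : 3 * t ^ 2 = s ^ 2) (hpt : PP X ε (-t) (-t) (-t)) :
    2 * L / 3 ≤ s ∧ (∀ i, -((ε * s) • tv i) ∈ X) ∧
    (∀ i, (ε * L) • tv i ∈ X) ∧ (∀ i, ∀ z ∈ X, ‖z‖ < L → L ≤ ‖z - (ε * L) • tv i‖) := by
  obtain ⟨h1, u, hu, hu2, hlp⟩ := hP.mainA ht hts hpt
  have hs : 0 < s := hP.spos
  have hL : 0 < L := hs.trans hP.sL
  have hs4 := hP.s4
  have hL4 := hP.L4
  have e1 : Real.sqrt 3 * t = s := by
    have h3 : (Real.sqrt 3 * t) ^ 2 = s ^ 2 := by
      rw [mul_pow, Real.sq_sqrt (by norm_num)]; exact hts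
    exact (pow_left_inj₀ (by positivity) hs.le two_ne_zero).1 h3
  have e2 : Real.sqrt 3 * u = L := by
    have h3 : (Real.sqrt 3 * u) ^ 2 = L ^ 2 := by
      rw [mul_pow, Real.sq_sqrt (by norm_num)]; exact hu2
    exact (pow_left_inj₀ (by positivity) hL.le two_ne_zero).1 h3
  have inv := hP.sph (k := s ^ 2) (by linarith)
  have v0 : PP X ε (-t) (-t) (-t) ∧ (-t) ^ 2 + (-t) ^ 2 + (-t) ^ 2 = s ^ 2 :=
    ⟨hpt, by linarith [neg_sq t]⟩
  have v1 := (inv.d _ _ _ v0).1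
  have v2 := (inv.s2 v0).1
  have v3 := (inv.s3 v0).1
  have l1 := hP.lp.d _ _ _ hlp
  have l2 := hP.lp.s2 hlp
  have l3 := hP.lp.s3 hlp
  refine ⟨by linarith, ?_, ?_, ?_⟩
  · intro i
    rw [tv_eq e1, tc_neg]
    fin_cases i
    · exact hpt
    · exact v1
    · exact v2
    · exact v3
  · intro i
    rw [tv_eq e2]
    fin_cases i
    · exact hlp.1
    · exact l1.1
    · exact l2.1
    · exact l3.1
  · intro i
    rw [tv_eq e2]
    fin_cases i
    · exact lens_of hε hL.le hlp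
    · exact lens_of hε hL.le l1
    · exact lens_of hε hL.le l2
    · exact lens_of hε hL.le l3

end assembly

end Pool.Agent.H726.CT1a

namespace Pool.Agent.H726

open Pool.Agent.H576.RD CT1a

theorem rd_ct1a : S_CT1a := by
  intro X s L h0 hcyc hd hsw hmin hlens hL2 hsL
  have hp := hp_of (ε := 1) (Or.inl rfl) h0 hcyc hd hsw hmin hlens hL2 hsL
  have hp' := hp_of (ε := -1) (Or.inr rfl) h0 hcyc hd hsw hmin hlens hL2 hsL
  obtain ⟨v, hv, hvs⟩ := hmin.att 0 h0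
  rw [sub_zero] at hvs
  have hv1 : PP X 1 (v 0) (v 1) (v 2) := by
    unfold PP
    rw [one_mul, one_mul, one_mul, ← eta]
    exact hv
  have hv2 : v 0 ^ 2 + v 1 ^ 2 + v 2 ^ 2 = s ^ 2 := by rw [← nsq', hvs]
  obtain ⟨x, y, z, ⟨g1, g2⟩, g3, g4⟩ := (hp.sph (k := s ^ 2) (by
    have h1 := hp.s4
    have h2 := hp.L4
    linarith)).sort ⟨hv1, hv2⟩
  obtain ⟨t, ht, hts, hP | hP⟩ := hp.nearest g1 g2 g3 g4
  · refine ⟨-1, Or.inr rfl, final (Or.inr rfl) hp' ht hts ?_⟩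
    unfold PP at hP ⊢
    rw [one_mul] at hP
    rwa [neg_one_mul, neg_neg]
  · exact ⟨1, Or.inl rfl, final (Or.inl rfl) hp ht hts hP⟩

end Pool.Agent.H726
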