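import Pool.Agent.H979.FR.Stm

set_option autoImplicit false

open MeasureTheory

namespace Pool.Agent.H726

open Pool.Agent.H979.FR

theorem fr_path {V : Type} [MeasurableSpace V] [DiscreteMeasurableSpace V] [Countable V] (x : V) :
    ∀ n : ℕ, Measurable (fun c : ℕ × V → V => path x c n)
  | 0 => measurable_const
  | n + 1 => by
    refine measurable_to_countable' fun y => ?_
    have h1 : (fun c : ℕ × V → V => path x c (n + 1)) ⁻¹' {y} =
        ⋃ v : V, ((fun c : ℕ × V → V => path x c n) ⁻¹' {v} ∩
          (fun c : ℕ × V → V => c (n, v)) ⁻¹' {y}) := by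
      ext c
      simp only [Set.mem_preimage, Set.mem_singleton_iff, Set.mem_iUnion, Set.mem_inter_iff, path]
      constructor
      · intro h
        exact ⟨path x c n, rfl, h⟩
      · rintro ⟨v, h2, h3⟩
        rw [h2]
        exact h3
    rw [h1]
    refine MeasurableSet.iUnion fun v => MeasurableSet.inter ?_ ?_
    · exact fr_path x n (measurableSet_singleton v)
    · exact measurable_pi_apply (n, v) (measurableSet_singleton y)

theorem fr_meas : S_MEAS := by
  intro V _ _ _ t x y
  have h1 : {ξ : Pool.Agent.H979.FR.Part V | y ∈ visits t x ξ} = ⋃ n : ℕ,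
      ({ξ : Pool.Agent.H979.FR.Part V | ∑ i ∈ Finset.range n, ξ.1 i ≤ t} ∩
        {ξ : Pool.Agent.H979.FR.Part V | path x ξ.2 n = y}) := by
    ext ξ
    simp only [visits, Set.mem_setOf_eq, Set.mem_iUnion, Set.mem_inter_iff]
  rw [h1]
  refine MeasurableSet.iUnion fun n => MeasurableSet.inter ?_ ?_
  · refine measurableSet_le ?_ measurable_const
    exact Finset.measurable_sum _ fun i _ => (measurable_pi_apply i).comp measurable_fst
  · exact ((fr_path x n).comp measurable_snd) (measurableSet_singleton y)

end Pool.Agent.H726
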