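import Pool.Agent.H867.FT.Gen6

/-!
# Coefficient fields of complete local rings of characteristic `p` with prescribed `p`-basis
-/

set_option autoImplicit false

namespace Pool.Agent.H726.FT867COF

open Pool.Agent.H867.FT

section Phi

variable {p : ℕ} [hp : Fact p.Prime] {S : Type} [CommRing S] [CharP S p] {s : ℕ}

/-- the subring generated by the `p`-th powers of the elements of `B` and by the `τ i` -/
def Phi (p : ℕ) {S : Type} [CommRing S] {s : ℕ} (τ : Fin s → S) (B : Subring S) : Subring S :=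
  Subring.closure ((fun b => b ^ p) '' (B : Set S) ∪ Set.range τ)

/-- the sums `∑ c_a^p τ^a` with coefficients in `B` -/
def Rep (p : ℕ) {S : Type} [CommRing S] {s : ℕ} (τ : Fin s → S) (B : Subring S) (x : S) : Prop :=
  ∃ c : (Fin s → Fin p) → S, (∀ a, c a ∈ B) ∧ x = ∑ a, c a ^ p * ∏ i, τ i ^ (a i : ℕ)

theorem rep_add {τ : Fin s → S} {B : Subring S} {x y : S} (hx : Rep p τ B x) (hy : Rep p τ B y) :
    Rep p τ B (x + y) := by
  obtain ⟨c, hc, rfl⟩ := hx
  obtain ⟨c', hc', rfl⟩ := hy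
  refine ⟨fun a => c a + c' a, fun a => add_mem (hc a) (hc' a), ?_⟩
  rw [← Finset.sum_add_distrib]
  refine Finset.sum_congr rfl fun a _ => ?_
  rw [add_pow_char, add_mul]

theorem rep_neg {τ : Fin s → S} {B : Subring S} {x : S} (hx : Rep p τ B x) :
    Rep p τ B (-x) := by
  have he : ExpChar S p := ExpChar.prime Fact.out
  obtain ⟨c, hc, rfl⟩ := hx
  refine ⟨fun a => - c a, fun a => neg_mem (hc a), ?_⟩
  rw [← Finset.sum_neg_distrib]
  refine Finset.sum_congr rfl fun a _ => ?_
  have h1 : (- c a) ^ p = - (c a ^ p) := by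
    have := map_neg (frobenius S p) (c a)
    rwa [frobenius_def, frobenius_def] at this
  rw [h1, neg_mul]

theorem rep_pow {τ : Fin s → S} {B : Subring S} {x b : S} (hb : b ∈ B) (hx : Rep p τ B x) :
    Rep p τ B (b ^ p * x) := by
  obtain ⟨c, hc, rfl⟩ := hx
  refine ⟨fun a => b * c a, fun a => mul_mem hb (hc a), ?_⟩
  rw [Finset.mul_sum]
  refine Finset.sum_congr rfl fun a _ => ?_
  rw [mul_pow, mul_assoc]

theorem rep_zero {τ : Fin s → S} {B : Subring S} : Rep p τ B 0 := by
  refine ⟨fun _ => 0, fun _ => zero_mem _, ?_⟩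
  rw [Finset.sum_eq_zero]
  intro a _
  rw [zero_pow hp.out.ne_zero, zero_mul]

theorem rep_one {τ : Fin s → S} {B : Subring S} : Rep p τ B 1 := by
  classical
  have hpos : 0 < p := hp.out.pos
  let z : Fin s → Fin p := fun _ => ⟨0, hpos⟩
  refine ⟨fun a => if a = z then 1 else 0, fun a => ?_, ?_⟩
  · show (if a = z then (1 : S) else 0) ∈ B
    split_ifs
    · exact one_mem _
    · exact zero_mem _
  · rw [Finset.sum_eq_single z]
    · show (1 : S) = (if z = z then (1 : S) else 0) ^ p * ∏ i, τ i ^ (z i : ℕ)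
      rw [if_pos rfl, one_pow, one_mul]
      symm
      refine Finset.prod_eq_one fun i _ => ?_
      exact pow_zero _
    · intro a _ ha
      show (if a = z then (1 : S) else 0) ^ p * ∏ i, τ i ^ (a i : ℕ) = 0
      rw [if_neg ha, zero_pow hp.out.ne_zero, zero_mul]
    · intro h
      exact absurd (Finset.mem_univ _) h

theorem rep_tau {τ : Fin s → S} {B : Subring S} (hτ : ∀ i, τ i ∈ B) (j : Fin s) {x : S}
    (hx : Rep p τ B x) : Rep p τ B (τ j * x) := by
  classical
  have : NeZero p := ⟨hp.out.ne_zero⟩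
  obtain ⟨c, hc, rfl⟩ := hx
  have h2 : 2 ≤ p := hp.out.two_le
  let e : Fin s → Fin p := Pi.single j 1
  let u : (Fin s → Fin p) → S := fun a => if (a j : ℕ) + 1 = p then τ j else 1
  have hu : ∀ a, u a ∈ B := by
    intro a
    show (if (a j : ℕ) + 1 = p then τ j else 1) ∈ B
    split_ifs
    · exact hτ j
    · exact one_mem _
  have hone : ((1 : Fin p) : ℕ) = 1 := by
    rw [Fin.val_one']
    exact Nat.mod_eq_of_lt (by omega)
  have key : ∀ a : Fin s → Fin p, τ j * ∏ i, τ i ^ (a i : ℕ) =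
      u a ^ p * ∏ i, τ i ^ ((a + e) i : ℕ) := by
    intro a
    rw [← Finset.mul_prod_erase Finset.univ (fun i => τ i ^ (a i : ℕ)) (Finset.mem_univ j),
      ← Finset.mul_prod_erase Finset.univ (fun i => τ i ^ ((a + e) i : ℕ)) (Finset.mem_univ j)]
    have h3 : ∏ i ∈ Finset.univ.erase j, τ i ^ ((a + e) i : ℕ) =
        ∏ i ∈ Finset.univ.erase j, τ i ^ (a i : ℕ) := by
      refine Finset.prod_congr rfl fun i hi => ?_
      have hij : i ≠ j := (Finset.mem_erase.1 hi).1
      have h4 : (a + e) i = a i := by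
        rw [Pi.add_apply]
        show a i + (Pi.single j 1 : Fin s → Fin p) i = a i
        rw [Pi.single_eq_of_ne hij, add_zero]
      rw [h4]
    rw [h3, ← mul_assoc, ← mul_assoc]
    congr 1
    have h5 : ((a + e) j : ℕ) = ((a j : ℕ) + 1) % p := by
      rw [Pi.add_apply]
      show ((a j + (Pi.single j 1 : Fin s → Fin p) j : Fin p) : ℕ) = _
      rw [Pi.single_eq_same, Fin.val_add, hone]
    rw [h5]
    show τ j * τ j ^ (a j : ℕ) = (if (a j : ℕ) + 1 = p then τ j else 1) ^ p * _
    split_ifs with h6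
    · rw [h6, Nat.mod_self, pow_zero, mul_one, ← pow_succ', h6]
    · have h7 : (a j : ℕ) + 1 < p := by
        have := (a j).2
        omega
      rw [Nat.mod_eq_of_lt h7, one_pow, one_mul, pow_succ']
  refine ⟨fun a => c (a - e) * u (a - e), fun a => mul_mem (hc _) (hu _), ?_⟩
  have hsum := Equiv.sum_comp (Equiv.addRight e) (fun a : Fin s → Fin p =>
    (c (a - e) * u (a - e)) ^ p * ∏ i, τ i ^ (a i : ℕ))
  refine Eq.trans ?_ hsum
  rw [Finset.mul_sum]
  refine Finset.sum_congr rfl fun a _ => ?_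
  show τ j * (c a ^ p * ∏ i, τ i ^ (a i : ℕ)) =
    (c (a + e - e) * u (a + e - e)) ^ p * ∏ i, τ i ^ ((a + e) i : ℕ)
  rw [add_sub_cancel_right, mul_pow, mul_assoc, ← key a]
  ring

theorem rep_of_mem {τ : Fin s → S} {B : Subring S} (hτ : ∀ i, τ i ∈ B) {x : S}
    (hx : x ∈ Phi p τ B) : Rep p τ B x := by
  have h : ∀ y, Rep p τ B y → Rep p τ B (x * y) := by
    unfold Phi at hx
    induction hx using Subring.closure_induction with
    | mem x hx =>
      rcases hx with ⟨b, hb, rfl⟩ | ⟨j, rfl⟩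
      · exact fun y hy => rep_pow hb hy
      · exact fun y hy => rep_tau hτ j hy
    | zero => exact fun y _ => by rw [zero_mul]; exact rep_zero
    | one => exact fun y hy => by rw [one_mul]; exact hy
    | add x x' _ _ ih ih' => exact fun y hy => by rw [add_mul]; exact rep_add (ih y hy) (ih' y hy)
    | neg x _ ih => exact fun y hy => by rw [neg_mul]; exact rep_neg (ih y hy)
    | mul x x' _ _ ih ih' => exact fun y hy => by rw [mul_assoc]; exact ih _ (ih' y hy)
  have := h 1 rep_one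
  rwa [mul_one] at this

theorem tau_mem_Phi (τ : Fin s → S) (B : Subring S) (i : Fin s) : τ i ∈ Phi p τ B :=
  Subring.subset_closure (Or.inr ⟨i, rfl⟩)

theorem pow_mem_Phi (τ : Fin s → S) {B : Subring S} {b : S} (hb : b ∈ B) : b ^ p ∈ Phi p τ B :=
  Subring.subset_closure (Or.inl ⟨b, hb, rfl⟩)

theorem Phi_mono (τ : Fin s → S) {B B' : Subring S} (h : B ≤ B') : Phi p τ B ≤ Phi p τ B' := by
  refine Subring.closure_mono ?_
  rintro x (⟨b, hb, rfl⟩ | hx)
  · exact Or.inl ⟨b, h hb, rfl⟩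
  · exact Or.inr hx

/-- the decreasing sequence of subrings -/
def Bs (p : ℕ) {S : Type} [CommRing S] {s : ℕ} (τ : Fin s → S) : ℕ → Subring S
  | 0 => ⊤
  | n + 1 => Phi p τ (Bs p τ n)

theorem Bs_succ_le (τ : Fin s → S) (n : ℕ) : Bs p τ (n + 1) ≤ Bs p τ n := by
  induction n with
  | zero => exact le_top
  | succ n ih => exact Phi_mono τ ih

theorem Bs_anti (τ : Fin s → S) : Antitone (Bs p τ) := antitone_nat_of_succ_le (Bs_succ_le τ)

theorem tau_mem (τ : Fin s → S) (n : ℕ) (i : Fin s) : τ i ∈ Bs p τ n := by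
  cases n with
  | zero => exact Subring.mem_top _
  | succ n => exact tau_mem_Phi τ _ i

end Phi

section Local

variable {p : ℕ} [hp : Fact p.Prime] {S : Type} [CommRing S] [IsLocalRing S] [CharP S p] {s : ℕ}

theorem residue_sum (τ : Fin s → S) (c : (Fin s → Fin p) → S) :
    IsLocalRing.residue S (∑ a, c a ^ p * ∏ i, τ i ^ (a i : ℕ)) =
      ∑ a, IsLocalRing.residue S (c a) ^ p *
        ∏ i, (fun i => IsLocalRing.residue S (τ i)) i ^ (a i : ℕ) := by
  rw [map_sum]
  refine Finset.sum_congr rfl fun a _ => ?_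
  rw [map_mul, map_pow, map_prod]
  simp only [map_pow]

theorem surj (τ : Fin s → S) (ht : IsPB p (fun i => IsLocalRing.residue S (τ i))) (n : ℕ) :
    ∀ α : IsLocalRing.ResidueField S, ∃ b ∈ Bs p τ n, IsLocalRing.residue S b = α := by
  induction n with
  | zero =>
    intro α
    obtain ⟨b, hb⟩ := IsLocalRing.residue_surjective α
    exact ⟨b, Subring.mem_top _, hb⟩
  | succ n ih =>
    intro α
    obtain ⟨c, hc, _⟩ := ht α
    choose b hb hb' using fun a => ih (c a)
    refine ⟨∑ a, b a ^ p * ∏ i, τ i ^ (a i : ℕ), ?_, ?_⟩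
    · refine sum_mem fun a _ => mul_mem (pow_mem_Phi τ (hb a)) ?_
      exact prod_mem fun i _ => pow_mem (tau_mem_Phi τ _ i) _
    · rw [residue_sum]
      simp only [hb']
      exact hc.symm

theorem ker (τ : Fin s → S) (ht : IsPB p (fun i => IsLocalRing.residue S (τ i))) (n : ℕ) :
    ∀ b ∈ Bs p τ n, IsLocalRing.residue S b = 0 → b ∈ IsLocalRing.maximalIdeal S ^ (n + 1) := by
  induction n with
  | zero =>
    intro b _ hb
    rw [zero_add, pow_one]
    exact (IsLocalRing.residue_eq_zero_iff b).1 hb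
  | succ n ih =>
    intro b hb hb0
    obtain ⟨c, hc, rfl⟩ := rep_of_mem (tau_mem τ n) hb
    rw [residue_sum] at hb0
    have h0 : (0 : IsLocalRing.ResidueField S) = ∑ a : Fin s → Fin p,
        (fun _ => (0 : IsLocalRing.ResidueField S)) a ^ p *
          ∏ i, (fun i => IsLocalRing.residue S (τ i)) i ^ (a i : ℕ) := by
      symm
      refine Finset.sum_eq_zero fun a _ => ?_
      rw [zero_pow hp.out.ne_zero, zero_mul]
    have h1 := (ht 0).unique (y₁ := fun a => IsLocalRing.residue S (c a))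
      (y₂ := fun _ => 0) hb0.symm h0
    refine sum_mem fun a _ => Ideal.mul_mem_right _ _ ?_
    have h2 : IsLocalRing.residue S (c a) = 0 := congrFun h1 a
    have h3 := ih (c a) (hc a) h2
    have h4 := Ideal.pow_mem_pow h3 p
    rw [← pow_mul] at h4
    refine Ideal.pow_le_pow_right ?_ h4
    have := hp.out.two_le
    nlinarith

/-- the coefficient field -/
def E (p : ℕ) {S : Type} [CommRing S] [IsLocalRing S] {s : ℕ} (τ : Fin s → S) : Subring S :=
  ⨅ n : ℕ, ((Bs p τ n).map (Ideal.Quotient.mk (IsLocalRing.maximalIdeal S ^ (n + 1)))).comap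
    (Ideal.Quotient.mk (IsLocalRing.maximalIdeal S ^ (n + 1)))

theorem mem_E (τ : Fin s → S) (x : S) :
    x ∈ E p τ ↔ ∀ n, ∃ b ∈ Bs p τ n, b - x ∈ IsLocalRing.maximalIdeal S ^ (n + 1) := by
  unfold E
  rw [Subring.mem_iInf]
  refine forall_congr' fun n => ?_
  rw [Subring.mem_comap, Subring.mem_map]
  constructor
  · rintro ⟨b, hb, he⟩
    exact ⟨b, hb, Ideal.Quotient.eq.1 he⟩
  · rintro ⟨b, hb, he⟩
    exact ⟨b, hb, Ideal.Quotient.eq.2 he⟩

theorem inj (τ : Fin s → S) (ht : IsPB p (fun i => IsLocalRing.residue S (τ i)))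
    [IsHausdorff (IsLocalRing.maximalIdeal S) S] (x : S) (hx : x ∈ E p τ)
    (h0 : IsLocalRing.residue S x = 0) : x = 0 := by
  rw [mem_E] at hx
  refine IsHausdorff.haus (I := IsLocalRing.maximalIdeal S) inferInstance x fun n => ?_
  rw [SModEq.zero, smul_eq_mul, Ideal.mul_top]
  obtain ⟨b, hb, he⟩ := hx n
  have h1 : b - x ∈ IsLocalRing.maximalIdeal S :=
    (Ideal.pow_le_self (Nat.succ_ne_zero n)) he
  have h2 : IsLocalRing.residue S b = 0 := by
    have h3 := (IsLocalRing.residue_eq_zero_iff (b - x)).2 h1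
    rwa [map_sub, h0, sub_zero] at h3
  have h3 := ker τ ht n b hb h2
  have h4 : x ∈ IsLocalRing.maximalIdeal S ^ (n + 1) := by
    have := sub_mem h3 he
    rwa [sub_sub_cancel] at this
  exact Ideal.pow_le_pow_right (Nat.le_succ n) h4

theorem surjE (τ : Fin s → S) (ht : IsPB p (fun i => IsLocalRing.residue S (τ i)))
    [IsPrecomplete (IsLocalRing.maximalIdeal S) S] (α : IsLocalRing.ResidueField S) :
    ∃ x ∈ E p τ, IsLocalRing.residue S x = α := by
  choose b hb hb' using fun n => surj τ ht n α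
  have hd : ∀ {m n : ℕ}, m ≤ n → b m - b n ∈ IsLocalRing.maximalIdeal S ^ (m + 1) := by
    intro m n hmn
    refine ker τ ht m _ (sub_mem (hb m) (Bs_anti τ hmn (hb n))) ?_
    rw [map_sub, hb', hb', sub_self]
  obtain ⟨L, hL⟩ := IsPrecomplete.prec (I := IsLocalRing.maximalIdeal S) inferInstance (f := b)
    (by
      intro m n hmn
      rw [SModEq.sub_mem, smul_eq_mul, Ideal.mul_top]
      exact Ideal.pow_le_pow_right (Nat.le_succ m) (hd hmn))
  have hL' : ∀ n, b n - L ∈ IsLocalRing.maximalIdeal S ^ n := by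
    intro n
    have := hL n
    rwa [SModEq.sub_mem, smul_eq_mul, Ideal.mul_top] at this
  refine ⟨L, ?_, ?_⟩
  · rw [mem_E]
    intro n
    exact ⟨b (n + 1), Bs_succ_le τ n (hb (n + 1)), hL' (n + 1)⟩
  · have h1 := hL' 1
    rw [pow_one] at h1
    have h2 := (IsLocalRing.residue_eq_zero_iff (b 1 - L)).2 h1
    rw [map_sub, hb', sub_eq_zero] at h2
    exact h2.symm

end Local

theorem cof : S_COF := by
  intro p _ S _ _ _ _ s τ ht
  let f : E p τ →+* IsLocalRing.ResidueField S := (IsLocalRing.residue S).comp (E p τ).subtype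
  have hf : Function.Bijective f := by
    constructor
    · rw [injective_iff_map_eq_zero]
      intro x hx
      exact Subtype.ext (inj τ ht x.1 x.2 hx)
    · intro α
      obtain ⟨x, hx, hα⟩ := surjE τ ht α
      exact ⟨⟨x, hx⟩, hα⟩
  let g := RingEquiv.ofBijective f hf
  refine ⟨(E p τ).subtype.comp (g.symm : IsLocalRing.ResidueField S →+* E p τ), ?_, ?_⟩
  · intro a
    exact g.apply_symm_apply a
  · intro i
    have hE : τ i ∈ E p τ := by
      rw [mem_E]
      exact fun n => ⟨τ i, tau_mem τ n i, by rw [sub_self]; exact zero_mem _⟩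
    have h1 : IsLocalRing.residue S (τ i) = g ⟨τ i, hE⟩ := rfl
    show ((g.symm (IsLocalRing.residue S (τ i)) : E p τ) : S) = τ i
    rw [h1, g.symm_apply_apply]

end Pool.Agent.H726.FT867COF
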