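import Pool.Agent.H235.Ti.SpecL
import Pool.Graph.R_pool_sql_team_seeded_63374d34.N789.QD.KF

set_option autoImplicit false

/-!
# Project Ti: the product formula for Macdonald's functions (`S_KK`)
-/

namespace Pool.Agent.H726.TiKK

open MeasureTheory Set Filter Topology
open Pool.Agent.N275.QD (Kf)
open Pool.Agent.N789.KF (integrable_exp_cosh)
open scoped Real

lemma Kf_full (μ x : ℝ) :
    ∫ u : ℝ, Real.exp (-(x * Real.cosh u)) * Real.cos (μ * u) = 2 * Kf μ x := by
  have h2 := integral_comp_abs (f := fun u => Real.exp (-(x * Real.cosh u)) * Real.cos (μ * u))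
  have h3 : ∀ u : ℝ, Real.exp (-(x * Real.cosh |u|)) * Real.cos (μ * |u|) =
      Real.exp (-(x * Real.cosh u)) * Real.cos (μ * u) := by
    intro u
    rw [Real.cosh_abs]
    rcases abs_cases u with h | h
    · rw [h.1]
    · rw [h.1, mul_neg, Real.cos_neg]
  simp only [h3] at h2
  rw [h2]
  rfl

lemma sin_full (μ x : ℝ) :
    ∫ u : ℝ, Real.exp (-(x * Real.cosh u)) * Real.sin (μ * u) = 0 := by
  have h3 := integral_neg_eq_self
    (fun u : ℝ => Real.exp (-(x * Real.cosh u)) * Real.sin (μ * u)) volume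
  simp only [Real.cosh_neg, mul_neg, Real.sin_neg, integral_neg] at h3
  linarith

lemma integrable_exp_cos {x : ℝ} (hx : 0 < x) (μ : ℝ) :
    Integrable (fun u : ℝ => Real.exp (-(x * Real.cosh u)) * Real.cos (μ * u)) := by
  refine (integrable_exp_cosh hx).mono (by fun_prop) ?_
  filter_upwards with u
  rw [norm_mul]
  exact mul_le_of_le_one_right (norm_nonneg _) (Real.abs_cos_le_one _)

lemma integrable_exp_sin {x : ℝ} (hx : 0 < x) (μ : ℝ) :
    Integrable (fun u : ℝ => Real.exp (-(x * Real.cosh u)) * Real.sin (μ * u)) := by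
  refine (integrable_exp_cosh hx).mono (by fun_prop) ?_
  filter_upwards with u
  rw [norm_mul]
  exact mul_le_of_le_one_right (norm_nonneg _) (Real.abs_sin_le_one _)

/-- the integrand of the product of two Macdonald functions -/
noncomputable def k (μ A B : ℝ) (z : ℝ × ℝ) : ℝ :=
  Real.exp (-(A * Real.cosh z.1)) * Real.exp (-(B * Real.cosh z.2)) * Real.cos (μ * (z.1 - z.2))

lemma k_eq (μ A B : ℝ) (z : ℝ × ℝ) : k μ A B z =
    (Real.exp (-(A * Real.cosh z.1)) * Real.cos (μ * z.1)) *
        (Real.exp (-(B * Real.cosh z.2)) * Real.cos (μ * z.2)) +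
      (Real.exp (-(A * Real.cosh z.1)) * Real.sin (μ * z.1)) *
        (Real.exp (-(B * Real.cosh z.2)) * Real.sin (μ * z.2)) := by
  unfold k
  rw [mul_sub, Real.cos_sub]
  ring

lemma integrable_k (μ : ℝ) {A B : ℝ} (hA : 0 < A) (hB : 0 < B) : Integrable (k μ A B) := by
  have h : k μ A B = fun z : ℝ × ℝ =>
      (Real.exp (-(A * Real.cosh z.1)) * Real.cos (μ * z.1)) *
        (Real.exp (-(B * Real.cosh z.2)) * Real.cos (μ * z.2)) +
      (Real.exp (-(A * Real.cosh z.1)) * Real.sin (μ * z.1)) *
        (Real.exp (-(B * Real.cosh z.2)) * Real.sin (μ * z.2)) := funext (k_eq μ A B)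
  rw [h]
  exact ((integrable_exp_cos hA μ).mul_prod (integrable_exp_cos hB μ)).add
    ((integrable_exp_sin hA μ).mul_prod (integrable_exp_sin hB μ))

lemma integral_k (μ : ℝ) {A B : ℝ} (hA : 0 < A) (hB : 0 < B) :
    ∫ z, k μ A B z = 4 * (Kf μ A * Kf μ B) := by
  simp only [k_eq]
  rw [Measure.volume_eq_prod]
  rw [integral_add ((integrable_exp_cos hA μ).mul_prod (integrable_exp_cos hB μ))
    ((integrable_exp_sin hA μ).mul_prod (integrable_exp_sin hB μ))]
  have h1 := integral_prod_mul (μ := (volume : Measure ℝ)) (ν := (volume : Measure ℝ))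
    (fun u : ℝ => Real.exp (-(A * Real.cosh u)) * Real.cos (μ * u))
    (fun u : ℝ => Real.exp (-(B * Real.cosh u)) * Real.cos (μ * u))
  have h2 := integral_prod_mul (μ := (volume : Measure ℝ)) (ν := (volume : Measure ℝ))
    (fun u : ℝ => Real.exp (-(A * Real.cosh u)) * Real.sin (μ * u))
    (fun u : ℝ => Real.exp (-(B * Real.cosh u)) * Real.sin (μ * u))
  rw [h1, h2, Kf_full, Kf_full, sin_full, sin_full]
  ring

/-- the integrand on the other side, as a function of `(v, u)` -/
noncomputable def f (μ A B : ℝ) (z : ℝ × ℝ) : ℝ :=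
  Real.exp (-((Real.exp z.1 + (A ^ 2 + B ^ 2 + 2 * A * B * Real.cosh z.2) * Real.exp (-z.1)) / 2)) *
    Real.cos (μ * z.2)

/-- the shear -/
noncomputable def sh1 (A B : ℝ) (z : ℝ × ℝ) : ℝ × ℝ :=
  (z.2 + Real.log (A * Real.exp z.1 + B), z.1)

/-- the shear -/
def sh2 (z : ℝ × ℝ) : ℝ × ℝ := (z.1 + z.2, z.2)

lemma mp_sh2 : MeasurePreserving sh2 := by
  have h := MeasurePreserving.skew_product (μa := (volume : Measure ℝ)) (μb := volume)
    (μc := (volume : Measure ℝ)) (μd := volume) (f := id)
    (MeasurePreserving.id _) (g := fun y u : ℝ => u + y) (by fun_prop)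
    (Eventually.of_forall fun y => (measurePreserving_add_right volume y).map_eq)
  have h2 := (Measure.measurePreserving_swap (μ := (volume : Measure ℝ))
    (ν := (volume : Measure ℝ))).comp (h.comp
      (Measure.measurePreserving_swap (μ := (volume : Measure ℝ)) (ν := (volume : Measure ℝ))))
  exact h2

lemma mp_sh1 {A B : ℝ} : MeasurePreserving (sh1 A B) := by
  have h := MeasurePreserving.skew_product (μa := (volume : Measure ℝ)) (μb := volume)
    (μc := (volume : Measure ℝ)) (μd := volume) (f := id)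
    (MeasurePreserving.id _) (g := fun u y : ℝ => y + Real.log (A * Real.exp u + B))
    (by fun_prop)
    (Eventually.of_forall fun u => (measurePreserving_add_right volume _).map_eq)
  have h2 := (Measure.measurePreserving_swap (μ := (volume : Measure ℝ))
    (ν := (volume : Measure ℝ))).comp h
  exact h2

lemma comp_eq (μ : ℝ) {A B : ℝ} (hA : 0 < A) (hB : 0 < B) :
    f μ A B ∘ sh1 A B = k μ A B ∘ sh2 := by
  funext z
  have hp : 0 < A * Real.exp z.1 + B := by positivity
  simp only [Function.comp, f, k, sh1, sh2]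
  rw [← Real.exp_add]
  have h1 : z.1 + z.2 - z.2 = z.1 := by ring
  rw [h1]
  congr 2
  rw [neg_add, Real.exp_add, Real.exp_add, Real.exp_log hp, Real.exp_neg (Real.log _),
    Real.exp_log hp, Real.cosh_eq, Real.cosh_eq, Real.cosh_eq, neg_add, Real.exp_add, Real.exp_add]
  have e1 : Real.exp (-z.1) * Real.exp z.1 = 1 := by rw [← Real.exp_add]; simp
  have e2 : Real.exp (-z.2) * Real.exp z.2 = 1 := by rw [← Real.exp_add]; simp
  have e3 : A ^ 2 + B ^ 2 + 2 * A * B * ((Real.exp z.1 + Real.exp (-z.1)) / 2) =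
      (A * Real.exp z.1 + B) * (A * Real.exp (-z.1) + B) := by
    linear_combination (-A ^ 2) * e1
  rw [e3]
  field_simp
  ring

lemma integrable_f (μ : ℝ) {A B : ℝ} (hA : 0 < A) (hB : 0 < B) : Integrable (f μ A B) := by
  have h1 : Integrable (k μ A B ∘ sh2) :=
    (mp_sh2.integrable_comp (integrable_k μ hA hB).aestronglyMeasurable).2 (integrable_k μ hA hB)
  rw [← comp_eq μ hA hB] at h1
  have hc : Continuous (f μ A B) := by unfold f; fun_prop
  exact (mp_sh1.integrable_comp hc.aestronglyMeasurable).1 h1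

lemma integral_f (μ : ℝ) {A B : ℝ} (hA : 0 < A) (hB : 0 < B) :
    ∫ z, f μ A B z = 4 * (Kf μ A * Kf μ B) := by
  have hc : Continuous (f μ A B) := by unfold f; fun_prop
  have hck : Continuous (k μ A B) := by unfold k; fun_prop
  have h1 : ∫ z, f μ A B z = ∫ z, f μ A B (sh1 A B z) := by
    have hm := mp_sh1 (A := A) (B := B)
    conv_lhs => rw [← hm.map_eq]
    rw [integral_map hm.measurable.aemeasurable hc.aestronglyMeasurable]
  have h2 : ∫ z, k μ A B z = ∫ z, k μ A B (sh2 z) := by
    conv_lhs => rw [← mp_sh2.map_eq]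
    rw [integral_map mp_sh2.measurable.aemeasurable hck.aestronglyMeasurable]
  rw [← integral_k μ hA hB, h1, h2]
  exact congrArg (fun F : ℝ × ℝ → ℝ => ∫ z, F z) (comp_eq μ hA hB)

lemma inner_f (μ A B v : ℝ) : ∫ u, f μ A B (v, u) =
    2 * (Real.exp (-((Real.exp v + (A ^ 2 + B ^ 2) * Real.exp (-v)) / 2)) *
      Kf μ (A * B * Real.exp (-v))) := by
  have h : ∀ u, f μ A B (v, u) =
      Real.exp (-((Real.exp v + (A ^ 2 + B ^ 2) * Real.exp (-v)) / 2)) *
        (Real.exp (-(A * B * Real.exp (-v) * Real.cosh u)) * Real.cos (μ * u)) := by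
    intro u
    unfold f
    rw [← mul_assoc, ← Real.exp_add]
    congr 2
    ring
  simp only [h]
  rw [integral_const_mul, Kf_full]
  ring

theorem kk : Pool.Agent.H235.Ti.S_KK := by
  intro μ a b κ ha hb hκ
  have hA : 0 < κ * a := by positivity
  have hB : 0 < κ * b := by positivity
  set A := κ * a with hAdef
  set B := κ * b with hBdef
  set F : ℝ → ℝ := fun t => Real.exp (-(κ ^ 2 * t) - (a ^ 2 + b ^ 2) / (4 * t)) *
    Kf μ (a * b / (2 * t)) / t with hF
  have himg : (fun v : ℝ => Real.exp v / (2 * κ ^ 2)) '' univ = Ioi 0 := by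
    rw [image_univ]
    ext t
    simp only [mem_range, mem_Ioi]
    constructor
    · rintro ⟨v, rfl⟩
      positivity
    · intro ht
      refine ⟨Real.log (2 * κ ^ 2 * t), ?_⟩
      rw [Real.exp_log (by positivity)]
      field_simp
  have hderiv : ∀ v ∈ (univ : Set ℝ), HasDerivWithinAt (fun v : ℝ => Real.exp v / (2 * κ ^ 2))
      (Real.exp v / (2 * κ ^ 2)) univ v := by
    intro v _
    exact ((Real.hasDerivAt_exp v).div_const _).hasDerivWithinAt
  have hinj : InjOn (fun v : ℝ => Real.exp v / (2 * κ ^ 2)) univ := by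
    intro x _ y _ hxy
    have h2 : (2 * κ ^ 2) ≠ 0 := by positivity
    have h3 : Real.exp x = Real.exp y := by
      simp only at hxy
      field_simp at hxy
      exact hxy
    exact Real.exp_injective h3
  have hG : ∀ v : ℝ, |Real.exp v / (2 * κ ^ 2)| • F (Real.exp v / (2 * κ ^ 2)) =
      (1 / 2) * ∫ u, f μ A B (v, u) := by
    intro v
    rw [inner_f, abs_of_pos (by positivity), smul_eq_mul, hF]
    simp only
    have e1 : Real.exp (-v) = (Real.exp v)⁻¹ := Real.exp_neg v
    have e2 : -(κ ^ 2 * (Real.exp v / (2 * κ ^ 2))) - (a ^ 2 + b ^ 2) /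
        (4 * (Real.exp v / (2 * κ ^ 2))) =
        -((Real.exp v + (A ^ 2 + B ^ 2) * Real.exp (-v)) / 2) := by
      rw [e1, hAdef, hBdef]
      have := Real.exp_pos v
      field_simp
      ring
    have e3 : a * b / (2 * (Real.exp v / (2 * κ ^ 2))) = A * B * Real.exp (-v) := by
      rw [e1, hAdef, hBdef]
      have := Real.exp_pos v
      field_simp
    rw [e2, e3]
    have := Real.exp_pos v
    field_simp
  have hint := integrable_f μ hA hB
  rw [Measure.volume_eq_prod] at hint
  have hint2 : Integrable (fun v => ∫ u, f μ A B (v, u)) := hint.integral_prod_left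
  have hval : ∫ v, ∫ u, f μ A B (v, u) = 4 * (Kf μ A * Kf μ B) := by
    rw [← integral_f μ hA hB, Measure.volume_eq_prod, integral_prod _ hint]
  constructor
  · have e : IntegrableOn F (Ioi 0) := by
      rw [← himg, integrableOn_image_iff_integrableOn_abs_deriv_smul MeasurableSet.univ hderiv hinj,
        integrableOn_univ]
      simp only [hG]
      exact hint2.const_mul _
    exact e
  · have e : ∫ t in Ioi (0 : ℝ), F t = 2 * Kf μ A * Kf μ B := by
      rw [← himg, integral_image_eq_integral_abs_deriv_smul MeasurableSet.univ hderiv hinj,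
        setIntegral_univ]
      simp only [hG]
      rw [integral_const_mul, hval]
      ring
    exact e

end Pool.Agent.H726.TiKK
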